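import Pool.Agent.H367.OS.GEul

/-!
# Independence of `ℓ` of local factors in each degree and one sequence of cubics over the integers

A relation `r` of size `m` is one of the equations `x_i x_j = x_l`, `x_i + x_j = x_l`, `x_i = 1` with
`i, j, l < m`; the relations are numbered, the number of `r` is `ν(r)` (`relNum`). Let `G_m` be the
following polynomial with integral coefficients (`univG ℤ m`). There are variables `x_i` and `z_ij` for
`i, j < m`, a variable `c_r` for every relation `r`, and variables `y_{r,l}` for all relations `r` and
`l < (m + 1) 2 ^ ν(r)`. The equations (`eqnG`) are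

  `z_ij - x_i x_j`,  `c_r ^ 2 - c_r`,  `c_r ρ_r`,  `(1 - c_r) y_{r,l}`,

where `ρ_r` is the linear polynomial `z_ij - x_l`, `x_i + x_j - x_l` or `x_i - 1` of the relation.
`G_m` is the sum of the equations multiplied by further variables `t_e`, one for each equation. It has
degree three. Let `C_m` be the affine cubic hypersurface `G_m = 1` (`cubG R m` over the ring `R`); it is
smooth over the integers.

For a representation `V` of `Gal(ℚ̄/ℚ)` over `ℚ_ℓ` and a prime `p ≠ ℓ` let `P_{p,ℓ}(V, t) = det(1 -
F_p t | V^{I_p})`. Let `r` be `0` or `1`. For a separated scheme `X` of finite type over `ℚ` and an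
integer `q` let

`c r q X = (∏_j P_{p,ℓ}(Gr^W_{2q+r} H^{2q+r+j}_c(X_ℚ̄, ℚ_ℓ)(q), t)^{(-1)^j})_{p, ℓ ≠ p}`,

the alternating products of the local factors of the parts of weight `2q + r` of the cohomology with
compact supports, twisted by `q`, an element of the product of the groups `ℚ_ℓ[[t]]ˣ` (written
additively). `Indep p x` says that the components of `x` at `p` and all `ℓ ≠ p` are in `ℚ[[t]]ˣ` and
do not depend on `ℓ`.

For a smooth projective variety `Y` over `ℚ` the component of `c r q Y` at `(p, ℓ)` is
`P_{p,ℓ}(H^i(Y)(q), t) = P_{p,ℓ}(H^i(Y), p^{-q} t)` for `i = 2 q + r`. As the eigenvalues of `F_p` on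
`H^i(Y)^{I_p}` are algebraic integers (SGA 7), `Indep p (c r q Y)` is the statement `Q1 p i Y` of the
question for `Y`, `p` and the degree `i` (`IsLocal.describes`).

**Theorem.** Let `E_m` be the number of the equations, and for `N ∈ ℕ` let
`idx m q N = q + (m + 1) N + E_m - 1`.

(1) For every prime `p` and every degree `i = 2 q + r`, `r ∈ {0, 1}`, question Q1 for `p` and the
degree `i` has a positive answer for all smooth projective varieties over `ℚ` if and only if, for
infinitely many `m`, the elements `c r (idx m q N) C_m` satisfy `Indep p`, for all `N`.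

(2) For every smooth projective variety `Y` over `ℚ`, every `d`, and all large `m` there is a number
`e` such that for all primes `p` and all degrees `i = 2 q + r` with `q ≤ d` the statement of question
Q1 for `Y`, `p` and `i` is equivalent to `Indep p (c r (q + e) C_m)`.

(3) The hypersurfaces `C_m` decide the statements (`Decides`): for every affine scheme `Spec B` of
finite type over `ℚ` and all large `m` there is an `N` such that for `0 ≤ n ≤ m` the statement with
the index `n` for `Spec B` is equivalent to the one with the index `idx m n N` for `C_m`; and for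
every separated scheme `X` of finite type and all large `m`, the statements for `C_m` imply the
statements for `X`.

(4) For `q = 0` (`i = 0`, and `i = 1`: Grothendieck) the elements `c r (idx m 0 N) C_m` satisfy
`Indep p`, for all `m`, `N` and `p`.

(5) `G_m` has integral coefficients and degree at most three, and `C_m` is smooth over all rings.

The hypotheses on the invariants are standard (`IsEuler`): they are additive for closed-open
decompositions; affine bundles shift the index; the invariants of `X` are zero for `q < 0` and `q >
dim X`; every smooth projective scheme has an affine bundle whose total space is affine (Jouanolou);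
the class of every `X` is an integral combination of classes of smooth projective schemes (Hironaka).
(For the additivity note that `Gr^W_w H^{w+j}_c(X)` is the realization of an object of the semisimple
category of motives in the sense of André, so that the functor `V ↦ V^{I_p}` is applied to split
sequences only.)

Idea of the proof. The projection of `C_m` to the affine space with the coordinates `x, z, c, y` is an
affine bundle over the complement of the zero set `W_m` of the equations. The scheme `W_m` is the
disjoint union, over all sets `s` of relations (`c_r = 1` for `r ∈ s` and `c_r = 0` for the others), of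
the products `X_s × 𝔸 ^ ((m + 1) N(s))`, where `X_s` is the affine scheme defined by the relations in
`s` and `N(s) = ∑_{r ∈ s} 2 ^ ν(r)`. The numbers `N(s)` are different, and the dimension of `X_s` is at
most `m`. So the invariant of `W_m` with the index `q + (m + 1) N(s)`, `0 ≤ q ≤ m`, is the invariant of
`X_s` with the index `q`; the other components do not contribute. Every affine scheme of finite type
over a prime field is an `X_s`, for all large `m`.

The universal system of relations is the one of helper854 (`Pool.Agent.H854.SQ`).
-/

set_option autoImplicit false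

open CategoryTheory CategoryTheory.Limits AlgebraicGeometry Pool.Agent.Y116.UV Pool.Agent.Z125.UN
  Pool.Agent.Q193.LT Pool.Agent.H854.SQ Pool.Agent.H367.OS

namespace Pool.Agent.Results.MP_898f40_nt.OneSequenceOverTheIntegers

/-- The pairs of prime numbers `p`, `ℓ ≠ p`. -/
abbrev Pairs : Type := {x : Nat.Primes × Nat.Primes // x.2 ≠ x.1}

/-- The invertible power series over a field `A`, written additively. -/
def PS (A : Type) [Field A] : Type := Additive (PowerSeries A)ˣ

noncomputable instance (A : Type) [Field A] : AddCommGroup (PS A) :=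
  inferInstanceAs (AddCommGroup (Additive (PowerSeries A)ˣ))

/-- The map on invertible power series of a homomorphism of fields. -/
noncomputable def mapPS {A B : Type} [Field A] [Field B] (f : A →+* B) : PS A →+ PS B :=
  MonoidHom.toAdditive (Units.map (PowerSeries.map f : PowerSeries A →* PowerSeries B))

/-- The invertible power series over `ℚ_ℓ`, written additively. -/
def Ser (x : Pairs) : Type :=
  haveI : Fact (x.1.2 : ℕ).Prime := ⟨x.1.2.2⟩
  PS ℚ_[x.1.2]

noncomputable instance (x : Pairs) : AddCommGroup (Ser x) :=
  haveI : Fact (x.1.2 : ℕ).Prime := ⟨x.1.2.2⟩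
  inferInstanceAs (AddCommGroup (PS ℚ_[x.1.2]))

/-- The families of invertible power series. -/
def Fam : Type := ∀ x : Pairs, Ser x

noncomputable instance : AddCommGroup Fam := inferInstanceAs (AddCommGroup (∀ x : Pairs, Ser x))

/-- The inclusion of the invertible power series over `ℚ`. -/
noncomputable def incl (x : Pairs) : PS ℚ →+ Ser x :=
  haveI : Fact (x.1.2 : ℕ).Prime := ⟨x.1.2.2⟩
  mapPS (Rat.castHom ℚ_[x.1.2])

/-- The families of power series whose components at `p` are rational and do not depend on `ℓ`. -/
def Indep (p : Nat.Primes) : AddSubgroup Fam where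
  carrier := {y | ∃ g : PS ℚ, ∀ x : Pairs, x.1.1 = p → y x = incl x g}
  zero_mem' := ⟨0, fun x _ => by rw [map_zero]; rfl⟩
  add_mem' := by
    rintro a b ⟨g, hg⟩ ⟨g', hg'⟩
    exact ⟨g + g', fun x hx => by rw [map_add, ← hg x hx, ← hg' x hx]; rfl⟩
  neg_mem' := by
    rintro a ⟨g, hg⟩
    exact ⟨-g, fun x hx => by rw [map_neg, ← hg x hx]; rfl⟩

/-- The components of `c r q X` at the prime `p` are rational and do not depend on `ℓ`. -/
def Local (c : Fin 2 → ℤ → Sch ℚ → Fam) (p : Nat.Primes) (r : Fin 2) (q : ℤ) (X : Sch ℚ) : Prop :=
  c r q X ∈ Indep p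

/-- The alternating products of local factors, and the statements of the question. -/
structure IsLocal (Q1 : Nat.Primes → ℕ → Sch ℚ → Prop) (c : Fin 2 → ℤ → Sch ℚ → Fam) : Prop where
  euler : ∀ r, IsEuler (c r)
  point : ∀ (p : Nat.Primes) (r : Fin 2) (q : ℤ), Local c p r q (aff ℚ ℚ)
  describes : ∀ (p : Nat.Primes) (q : ℕ) (r : Fin 2) (Y : Sch ℚ), SmoothProj Y →
    (Q1 p (2 * q + r) Y ↔ Local c p r q Y)
  low : ∀ (p : Nat.Primes) (r : Fin 2) (Y : Sch ℚ), SmoothProj Y → Q1 p r Y

/-- The statements of the question for a variety, in the degrees at most `2 d + 1`, and one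
hypersurface. -/
def Pieces (Q1 : Nat.Primes → ℕ → Sch ℚ → Prop) (c : Fin 2 → ℤ → Sch ℚ → Fam) : Prop :=
  ∀ (Y : Sch ℚ), SmoothProj Y → ∀ d : ℕ, ∀ r : Fin 2, ∃ m₀ : ℕ, ∀ m, m₀ ≤ m → ∃ e : ℕ,
    ∀ (p : Nat.Primes) (q : ℕ), q ≤ d → (Q1 p (2 * q + r) Y ↔ Local c p r (q + e) (cubG ℚ m))

/-- **Independence of `ℓ` of the local factors in each degree and one sequence of cubic hypersurfaces over
the integers.** See the explanations above. -/
theorem result {Q1 : Nat.Primes → ℕ → Sch ℚ → Prop} {c : Fin 2 → ℤ → Sch ℚ → Fam}
    (h : IsLocal Q1 c) :
    (∀ (p : Nat.Primes) (q : ℕ) (r : Fin 2), (∀ Y : Sch ℚ, SmoothProj Y → Q1 p (2 * q + r) Y) ↔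
      ∃ᶠ m in Filter.atTop, ∀ N : ℕ, Local c p r (idx m q N) (cubG ℚ m)) ∧
    Pieces Q1 c ∧
    (∀ (p : Nat.Primes) (r : Fin 2), Decides (Local c p r)) ∧
    (∀ (p : Nat.Primes) (r : Fin 2) (m N : ℕ), Local c p r (idx m 0 N) (cubG ℚ m)) ∧
    ∀ m : ℕ, (univG ℤ m).totalDegree ≤ 3 ∧
      ∀ (R : Type) [CommRing R], MvPolynomial.map (Int.castRingHom R) (univG ℤ m) = univG R m ∧
        Smooth (cubG R m).hom := by
  have hg : ∀ (p : Nat.Primes) (r : Fin 2), Graduated fun q X => c r q X ∈ Indep p :=
    fun p r => (h.euler r).graduated (Indep p) (h.point p r)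
  have hd : ∀ (p : Nat.Primes) (r : Fin 2), Decides (Local c p r) := fun p r =>
    decides_gen isPrimeField_rat (hg p r)
      fun q g X hX => (h.euler r).generated q (Indep p) g X hX
  refine ⟨fun p q r => Iff.trans ?_ (((hd p r).index q).out 1 0), fun Y hY d r => ?_, hd,
    fun p r m N => ?_, cubG_facts⟩
  · exact forall₂_congr fun Y hY => h.describes p q r Y hY
  · obtain ⟨m₀, hm⟩ := euler_proj isPrimeField_rat (h.euler r) Y hY d
    refine ⟨m₀, fun m hm1 => ?_⟩
    obtain ⟨e, he⟩ := hm m hm1
    refine ⟨e, fun p q hq => ?_⟩
    rw [h.describes p q r Y hY, Local, Local, he q (by positivity) (by exact_mod_cast hq),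
      neg_mem_iff]
  · refine known_indices (q := 0) (hg p r)
      (fun g X hX => (h.euler r).generated 0 (Indep p) g X hX)
      (fun Y hY => ?_) (Nat.zero_le m) N
    have h1 := (h.describes p 0 r Y hY).mp (by
      have h2 := h.low p r Y hY
      rwa [Nat.mul_zero, Nat.zero_add])
    exact_mod_cast h1

end Pool.Agent.Results.MP_898f40_nt.OneSequenceOverTheIntegers
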