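import Pool.Agent.H849.LF.Int

/-!
# Lefschetz maps: the local Euler factors up to an explicit quotient only depend on the ambient scheme

Let `X` be a projective strictly semistable scheme (only its special fibre is used), and let
`f : Z → X` and `f' : Z' → X` be Lefschetz maps (for example inclusions of complete intersections of
ample divisors, of zero schemes of sections of ample vector bundles, or ample coverings, always
transversal to the strata), `Z` and `Z'` of relative dimension `n`. Assume that the kernels of `f^*` and
of `f'^*` on the cohomology of the strata of `X` are the same; this is the case if `f_* f^*` and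
`f'_* f'^*` are proportional, for example if `Z` and `Z'` are complete intersections of divisors with
proportional classes. Then the local Euler factors of `H^i` of `Z` and of `Z'` are the same for `i ≠ n`,
and for `i = n` they differ by the explicit factor
`∏ det (F | H^(n-a)(Y^(a+1)(Z))) / det (F | H^(n-a)(Y^(a+1)(Z')))`.

Consequently the local Euler factors of `Z` have integral coefficients independent of `l` if and only if
this holds for `Z'`. Here `Z` and `Z'` may live over different discrete valuation rings.
-/

set_option autoImplicit false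

namespace Pool.Agent.Results.MP_898f40_nt.QuotientOfLocalFactors

open Pool.Agent.Y143 Pool.Agent.H849.LM Pool.Agent.H849.LF

universe u v

theorem result {Λ : Type} {K : Λ → Type u} [∀ l, Field (K l)] [∀ l, CharZero (K l)]
    [∀ l, IsAlgClosed (K l)] {Γ Γ₁ Γ₂ : Type} {N n q : ℕ} (hq : 1 < q)
    (X : ∀ l, SpecialFibre.{u, v} (K l) Γ N q) (Z : ∀ l, SemistableModel.{u, v} (K l) Γ₁ n q)
    (Z' : ∀ l, SemistableModel.{u, v} (K l) Γ₂ n q)
    (f : ∀ l, PullBacks (X l).toStrataData (Z l).toStrataData)
    (f' : ∀ l, PullBacks (X l).toStrataData (Z' l).toStrataData)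
    (hf : ∀ l, IsLefschetzMap n (f l)) (hf' : ∀ l, IsLefschetzMap n (f' l))
    (hk : ∀ l, HaveSameKernels (f l) (f' l))
    (hF : ∀ l, CommutesWithFrobenius (f l)) (hF' : ∀ l, CommutesWithFrobenius (f' l))
    (hN : ∀ l, IsTwisted (Z l)) (hN' : ∀ l, IsTwisted (Z' l)) :
    (∀ l i, i ≠ n → eulerPoly (Z l) i = eulerPoly (Z' l) i) ∧
    (∀ l, eulerPoly (Z l) n * ∏ a ∈ Finset.range (n + 1), middlePoly (Z' l) a =
      eulerPoly (Z' l) n * ∏ a ∈ Finset.range (n + 1), middlePoly (Z l) a) ∧
    ((∀ a ≤ n, IsIntegralIndependent (fun l => middlePoly (Z l) a) ∧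
        IsIntegralIndependent (fun l => middlePoly (Z' l) a)) →
      ∀ i, IsIntegralIndependent (fun l => eulerPoly (Z l) i) ↔
        IsIntegralIndependent (fun l => eulerPoly (Z' l) i)) := by
  have key := fun l i => main (hf l) (hf' l) (hF l) (hF' l) (hk l) hq (hN l) (hN' l) i
  have h1 : ∀ l i, i ≠ n → eulerPoly (Z l) i = eulerPoly (Z' l) i := by
    intro l i hi
    have := key l i
    rwa [if_neg hi, if_neg hi, mul_one, mul_one] at this
  have h2 : ∀ l, eulerPoly (Z l) n * ∏ a ∈ Finset.range (n + 1), middlePoly (Z' l) a =
      eulerPoly (Z' l) n * ∏ a ∈ Finset.range (n + 1), middlePoly (Z l) a := by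
    intro l
    have := key l n
    rwa [if_pos rfl, if_pos rfl] at this
  refine ⟨h1, h2, fun hm i => ?_⟩
  have hp : IsIntegralIndependent fun l => ∏ a ∈ Finset.range (n + 1), middlePoly (Z l) a :=
    IsIntegralIndependent.prod (P := fun a l => middlePoly (Z l) a)
      fun a ha => (hm a (by omega)).1
  have hp' : IsIntegralIndependent fun l => ∏ a ∈ Finset.range (n + 1), middlePoly (Z' l) a :=
    IsIntegralIndependent.prod (P := fun a l => middlePoly (Z' l) a)
      fun a ha => (hm a (by omega)).2
  by_cases hi : i = n
  · rw [hi]
    constructor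
    · intro h
      exact IsIntegralIndependent.of_mul (fun l => prod_monic (Z l)) hp' hp h
        fun l => (h2 l).symm
    · intro h
      exact IsIntegralIndependent.of_mul (fun l => prod_monic (Z' l)) hp hp' h h2
  · have : (fun l => eulerPoly (Z l) i) = fun l => eulerPoly (Z' l) i :=
      funext fun l => h1 l i hi
    rw [this]

end Pool.Agent.Results.MP_898f40_nt.QuotientOfLocalFactors
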