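import Pool.Agent.H849.LI.Final
import Pool.Agent.H849.PM.Main
import Pool.Agent.H849.PM.Indep

/-!
# Local Euler factors of the sections of products of varieties with bad reduction

Let `Z` be smooth projective over the local field `K`, with a log smooth model over a finite Galois
extension. The polynomials `P_(p, ℓ) = det (1 - F T)` on the inertia invariants in `H^i` of the
geometric generic fibre have integral coefficients and do not depend on `ℓ`

* if `H^i` is mw pure for all `ℓ`, and the cohomology in the degrees different from the middle degree
  `n = dim Z` is known;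
* in particular for all `i`, if `Z` has a Lefschetz map to `X_1 × ⋯ × X_s × G` of class
  `∑ L ^ i ⊗ β_i`, where `L = t_1 L_1 + ⋯ + t_s L_s`, for example for the complete intersections of
  divisors of the classes `a_j L + b_j` in the products of curves, surfaces and a variety `G` of good
  reduction; or if `Z` has a Lefschetz map `Z → W` of a polarised class, for example for the complete
  intersections of divisors of different classes `∑ t_ij L_i + b_j` in these products.
-/

set_option autoImplicit false

namespace Pool.Agent.Results.MP_898f40_nt.SectionsOfProducts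

open Pool.Agent.H849.PW Pool.Agent.H849.LI Pool.Agent.H849.PM

universe u v

theorem result {Λ : Type} {K : Λ → Type u} [∀ l, Field (K l)] [∀ l, CharZero (K l)]
    [∀ l, IsAlgClosed (K l)] {n q : ℕ} (hq : 1 < q) (Z : ∀ l, LogModel.{u, v} (K l) n q)
    (e : ∀ l, Operators (Z l)) (hZ : IsSystem Z e) (hO : IsKnownOutside Z e) :
    (∀ i, (∀ l, (Z l).PureIn i) → IsIndependent fun l => eulerFactor (Z l) (e l) i) ∧
    ((∀ l, IsSectionOfProduct n (Z l).toWeightTerm ∨ IsOfPolarizedClass n (Z l).toWeightTerm) →
      ∀ i, IsIndependent fun l => eulerFactor (Z l) (e l) i) := by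
  refine ⟨fun i hp => eulerFactors hZ hO hq i hp, fun h i => eulerFactors hZ hO hq i fun l => ?_⟩
  rcases h l with h | ⟨W, Θ, P, ε, hP, hε, h1, h2⟩
  · exact pure_of_section (Z l) h i
  · exact pureOverClasses hP hε W n q (Z l) Θ h1 h2 i

end Pool.Agent.Results.MP_898f40_nt.SectionsOfProducts
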